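import Pool.Agent.H436.PR.One
import Pool.Graph.R_pool_sql_team_seeded_707910d6.Results.MP_a59382_lc.RationalEquivalence

/-!
# The pole relation is not defined by fibre products of conic bundles

Let `K` be a number field. The library results `UnirationalFibres`, `QuadraticFamilies` and
`RationalEquivalence` exclude definitions of the relation `R_K` of the problem by disjunctions of
equations of small degree, of families of quadrics over a line, and of values of functions on
products of blocks; a block is a finite union of sets of points which are empty or dominated by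
products of affine spaces and of smooth quartic double covers.

Here we exclude a class of systems of arbitrarily many equations of degree up to ten in arbitrarily
many variables, the *fibre products of conic bundles*

  `w_j² = A_j(t) y_j² + F_j(t)`,  `j = 1, …, m`,

over the line, `A_j, F_j ∈ K[t]` nonzero of *small degrees*: for each `j` one of `A_j`, `F_j` is
constant, at most three of the pairs are nonconstant, and the sum of the numbers `⌈d_j / 2⌉`,
`d_j = deg A_j + deg F_j`, is at most four. (For instance one conic bundle with eight degenerate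
fibres.)

(1) All the `K`-points of such a system form a finite union of unirational sets, so a block.

(2) Over the affine space of dimension `n`, `t = (t_1, …, t_n)`, when the degrees in each variable
`t_i` are small, there is a polynomial `h ≠ 0` such that the points with `h(t) ≠ 0` form a
unirational set (if there is one), and a rational function on the points with `h(t) ≠ 0` whose values
satisfy the pole relation with one `b` is constant, for every rich set of primes.

(3) Headline: `R_K` is not a finite disjunction of formulas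

  `∃ t w y, ⋀_j w_j² = A_j(b, t) y_j² + F_j(b, t)  ∧  R ≠ 0  ∧  a = P / R`

with nonzero `A_j, F_j ∈ K[b][t]` of small degrees in `t` and with any polynomials `P`, `R` in
`t, w, y` (which depend on `b` in an arbitrary way). With `P = t`, `R = 1` these are the systems
`∃ w y, ⋀_j w_j² = A_j(b, a) y_j² + F_j(b, a)`.

(4) More generally, in each definition of `R_K` as a finite disjunction of such formulas (with
coefficients which depend on `b` in an arbitrary way), of the relations of `QuadraticFamilies`, and of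
pieces `∃ z, f(a, b, z) = 0 ∧ g(a, b, z) ≠ 0`, for each `b` for which the degrees are small a piece
holds for infinitely many `a` and has infinitely many classes for the closed R-equivalence.

(5) The same for the relations contained in the pole relation of a rich set of primes: each of the
formulas holds for finitely many `a`.

The proof. If the fibre over one point off `h = 0` has a `K`-point, then one constructs, variable
after variable, rational curves through this point over purely transcendental extensions of `K`, along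
which all the conics keep points (the theorem on fibre products of conic bundles of the earlier
hand-ins of helper436). So the conics have points over the generic point of a rational base, and are
rational there; this gives a dominant rational map from an affine space, and its image is dense in
the set of the `K`-points in general position. Over the line there are finitely many further fibres,
which are products of affine conics. A function on a unirational set with values in a flat ring is
constant.
-/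

set_option autoImplicit false

namespace Pool.Agent.Results.MP_a59382_lc.ConicBundles

open MvPolynomial Pool.Agent.TH766.HP Pool.Agent.TH783.CE Pool.Agent.T2H67.WA
open Pool.Agent.T2H39.RE (rEquiv Pts)
open Pool.Agent.R565.PU (Unirational)
open Pool.Agent.Results.MP_a59382_lc.CubicEquations (PoleRel)
open Pool.Agent.Results.MP_a59382_lc.QuadraticFamilies (Union)
open Pool.Agent.Results.MP_a59382_lc.UnirationalFibres (Block)
open Pool.Agent.Results.MP_a59382_lc.RationalEquivalence (pole_iff pole_int pole_mono)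

/-- Small degrees, for polynomials `A_j`, `F_j` in one variable: they are nonzero, one of `A_j`, `F_j`
is constant for each `j`, at most three of the pairs are nonconstant, and the sum of the numbers
`⌈(deg A_j + deg F_j) / 2⌉` is at most four. -/
def Small {R : Type} [Semiring R] {m : ℕ} (A F : Fin m → Polynomial R) : Prop :=
  (∀ j, A j ≠ 0 ∧ F j ≠ 0) ∧ (∀ j, (A j).natDegree = 0 ∨ (F j).natDegree = 0) ∧
  (Finset.univ.filter fun j => (A j).natDegree + (F j).natDegree ≠ 0).card ≤ 3 ∧
  ∑ j, ((A j).natDegree + (F j).natDegree + 1) / 2 ≤ 4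

/-- The point `(t, w, y)` is a solution of `w_j² = A_j(t) y_j² + F_j(t)`, `j = 1, …, m`. -/
def Sol {K : Type} [Field K] {m : ℕ} (A F : Fin m → Polynomial K) (t : K) (w y : Fin m → K) :
    Prop :=
  ∀ j, w j ^ 2 = (A j).eval t * y j ^ 2 + (F j).eval t

/-- The values of `P / R` at the solutions. -/
def Values {K : Type} [Field K] {m : ℕ} (A F : Fin m → Polynomial K)
    (P R : MvPolynomial (Fin 1 ⊕ (Fin m ⊕ Fin m)) K) : Set K :=
  {a | ∃ (t : K) (w y : Fin m → K), Sol A F t w y ∧
    eval (Sum.elim (fun _ => t) (Sum.elim w y)) R ≠ 0 ∧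
    a = eval (Sum.elim (fun _ => t) (Sum.elim w y)) P /
      eval (Sum.elim (fun _ => t) (Sum.elim w y)) R}

/-- Small degrees in each variable, for polynomials in `n` variables. -/
def SmallN {K : Type} [Field K] {n m : ℕ} (A F : Fin m → MvPolynomial (Fin n) K) : Prop :=
  (∀ j, A j ≠ 0 ∧ F j ≠ 0) ∧ ∀ i, (∀ j, (A j).degreeOf i = 0 ∨ (F j).degreeOf i = 0) ∧
  (Finset.univ.filter fun j => (A j).degreeOf i + (F j).degreeOf i ≠ 0).card ≤ 3 ∧
  ∑ j, ((A j).degreeOf i + (F j).degreeOf i + 1) / 2 ≤ 4

/-- The point `(t, w, y)` is a solution of `w_j² = A_j(t) y_j² + F_j(t)`, `t = (t_1, …, t_n)`. -/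
def SolN {K : Type} [Field K] {n m : ℕ} (A F : Fin m → MvPolynomial (Fin n) K) (t : Fin n → K)
    (w y : Fin m → K) : Prop :=
  ∀ j, w j ^ 2 = eval t (A j) * y j ^ 2 + eval t (F j)

/-- The values of `P / R` at the solutions with `h(t) ≠ 0`. -/
def ValuesN {K : Type} [Field K] {n m : ℕ} (A F : Fin m → MvPolynomial (Fin n) K)
    (h : MvPolynomial (Fin n) K) (P R : MvPolynomial (Fin n ⊕ (Fin m ⊕ Fin m)) K) : Set K :=
  {a | ∃ (t : Fin n → K) (w y : Fin m → K), SolN A F t w y ∧ eval t h ≠ 0 ∧
    eval (Sum.elim t (Sum.elim w y)) R ≠ 0 ∧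
    a = eval (Sum.elim t (Sum.elim w y)) P / eval (Sum.elim t (Sum.elim w y)) R}

/-- A formula `∃ t w y, ⋀_j w_j² = A_j(t) y_j² + F_j(t) ∧ R ≠ 0 ∧ a = P / R`, where the number `m` of
the equations is fixed and the polynomials depend on `b` in an arbitrary way. -/
structure Formula (K : Type) [Field K] where
  m : ℕ
  A : K → Fin m → Polynomial K
  F : K → Fin m → Polynomial K
  P : K → MvPolynomial (Fin 1 ⊕ (Fin m ⊕ Fin m)) K
  R : K → MvPolynomial (Fin 1 ⊕ (Fin m ⊕ Fin m)) K

/-- The set of the `a` for which the formula holds. -/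
def Formula.set {K : Type} [Field K] (Φ : Formula K) (b : K) : Set K :=
  Values (Φ.A b) (Φ.F b) (Φ.P b) (Φ.R b)

/-- The data of a finite union of relations of the library result `QuadraticFamilies`. -/
structure Old (K : Type) [Field K] where
  k : ℕ
  h : ℕ
  l : ℕ
  n : Fin k → ℕ
  m : Fin h → ℕ
  f : ∀ i, MvPolynomial (Fin 2 ⊕ Fin (n i)) K
  g : ∀ i, MvPolynomial (Fin 3 ⊕ Fin (m i)) K
  hf : ∀ i, ∀ e ∈ (f i).support, e (Sum.inl 0) + ∑ j, e (Sum.inr j) ≤ 3
  hg : ∀ i, ∀ e ∈ (g i).support, e (Sum.inl 0) + ∑ j, e (Sum.inr j) ≤ 2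
  r : Fin l → ℕ
  d : ∀ i, Fin (r i) → ℕ
  S : ∀ i, K → ∀ j, Set (Fin (d i j + 1) → K)
  p : ∀ i, K → MvPolynomial ((j : Fin (r i)) × Fin (d i j + 1)) K
  q : ∀ i, K → MvPolynomial ((j : Fin (r i)) × Fin (d i j + 1)) K

/-- The relation. -/
def Old.Rel {K : Type} [Field K] (φ : Old K) (a b : K) : Prop := Union φ.f φ.g φ.S φ.p φ.q a b

/-- For this `b` all the sets used are blocks. -/
def Old.Blocks {K : Type} [Field K] (φ : Old K) (b : K) : Prop := ∀ i j, Block (φ.S i b j)

/-- The finite disjunction of old relations, new formulas and pieces. -/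
def Disj {K : Type} [Field K] {c s : ℕ} (φ : Old K) (Φ : Fin c → Formula K) (W : Fin s → Piece K)
    (a b : K) : Prop :=
  φ.Rel a b ∨ (∃ i, a ∈ (Φ i).set b) ∨ ∃ i, (W i).Rel a b

theorem small_spec {K : Type} [Field K] {m : ℕ} {A F : Fin m → Polynomial (Polynomial K)}
    (h : Small A F) {b : K} (hb : ∀ j, (A j).map (Polynomial.evalRingHom b) ≠ 0 ∧
      (F j).map (Polynomial.evalRingHom b) ≠ 0) :
    Small (fun j => (A j).map (Polynomial.evalRingHom b))
      (fun j => (F j).map (Polynomial.evalRingHom b)) := by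
  obtain ⟨-, h1, h2, h3⟩ := h
  have hd : ∀ G : Polynomial (Polynomial K),
      (G.map (Polynomial.evalRingHom b)).natDegree ≤ G.natDegree := fun G =>
    Polynomial.natDegree_map_le
  refine ⟨hb, fun j => ?_, ?_, ?_⟩
  · have e1 := hd (A j)
    have e2 := hd (F j)
    have := h1 j
    beta_reduce
    omega
  · refine (Finset.card_le_card fun j hj => ?_).trans h2
    rw [Finset.mem_filter] at hj ⊢
    have e1 := hd (A j)
    have e2 := hd (F j)
    have := hj.2
    beta_reduce at this
    exact ⟨Finset.mem_univ _, by omega⟩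
  · refine (Finset.sum_le_sum fun j _ => ?_).trans h3
    have e1 := hd (A j)
    have e2 := hd (F j)
    beta_reduce
    omega

theorem exists_spec {K : Type} [Field K] [CharZero K] {k : ℕ} {m : Fin k → ℕ}
    {A F : ∀ i, Fin (m i) → Polynomial (Polynomial K)}
    (h : ∀ i j, A i j ≠ 0 ∧ F i j ≠ 0) :
    ∃ b : K, ∀ i j, (A i j).map (Polynomial.evalRingHom b) ≠ 0 ∧
      (F i j).map (Polynomial.evalRingHom b) ≠ 0 := by
  have hinf : Infinite K := CharZero.infinite K
  let D : Polynomial K := ∏ i, ∏ j, ((A i j).leadingCoeff * (F i j).leadingCoeff)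
  have hD : D ≠ 0 := Finset.prod_ne_zero_iff.2 fun i _ => Finset.prod_ne_zero_iff.2 fun j _ =>
    mul_ne_zero (Polynomial.leadingCoeff_ne_zero.2 (h i j).1)
      (Polynomial.leadingCoeff_ne_zero.2 (h i j).2)
  obtain ⟨b, hb⟩ : ∃ b : K, D.eval b ≠ 0 := by
    by_contra hcon
    push Not at hcon
    exact hD (Polynomial.funext fun r => by rw [hcon r, Polynomial.eval_zero])
  have key : ∀ G : Polynomial (Polynomial K), G.leadingCoeff.eval b ≠ 0 →
      G.map (Polynomial.evalRingHom b) ≠ 0 := by
    intro G hG h0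
    apply hG
    have h1 := congrArg (fun H => H.coeff G.natDegree) h0
    simpa only [Polynomial.coeff_map, Polynomial.coeff_zero, Polynomial.coe_evalRingHom,
      Polynomial.coeff_natDegree] using h1
  refine ⟨b, fun i j => ?_⟩
  rw [Polynomial.eval_prod, Finset.prod_ne_zero_iff] at hb
  have h1 := hb i (Finset.mem_univ i)
  rw [Polynomial.eval_prod, Finset.prod_ne_zero_iff] at h1
  have h2 := h1 j (Finset.mem_univ j)
  rw [Polynomial.eval_mul] at h2
  exact ⟨key _ (left_ne_zero_of_mul h2), key _ (right_ne_zero_of_mul h2)⟩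

theorem result :
    -- (1) the points of fibre products of conic bundles over the line of small degree are finite
    -- unions of unirational sets, so blocks
    (∀ (K : Type) [Field K] [CharZero K] (m N : ℕ) (ε : Fin 1 ⊕ (Fin m ⊕ Fin m) ≃ Fin N)
      (A F : Fin m → Polynomial K), Small A F → ∀ X : Set (Fin N → K),
      X = {x : Fin N → K | Sol A F (x (ε (Sum.inl 0))) (fun j => x (ε (Sum.inr (Sum.inl j))))
          (fun j => x (ε (Sum.inr (Sum.inr j))))} →
      (∃ (k : ℕ) (Y : Fin k → Set (Fin N → K)), (∀ i, Unirational (Y i)) ∧ X = ⋃ i, Y i) ∧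
      Block X) ∧
    -- (2) several variables: the points in general position are a unirational set, and rational
    -- functions on it whose values satisfy the pole relation are constant
    (∀ (K : Type) [Field K] [CharZero K] (n m : ℕ) (A F : Fin m → MvPolynomial (Fin n) K),
      SmallN A F → ∃ h : MvPolynomial (Fin n) K, h ≠ 0 ∧
      (∀ (N : ℕ) (ε : Fin n ⊕ (Fin m ⊕ Fin m) ≃ Fin N),
        Unirational {x : Fin N → K | SolN A F (fun i => x (ε (Sum.inl i)))
          (fun j => x (ε (Sum.inr (Sum.inl j)))) (fun j => x (ε (Sum.inr (Sum.inr j)))) ∧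
          eval (fun i => x (ε (Sum.inl i))) h ≠ 0}) ∧
      ∀ [NumberField K] (Q : Set ℕ), Rich Q → ∀ (b : K)
        (P R : MvPolynomial (Fin n ⊕ (Fin m ⊕ Fin m)) K),
        (∀ a ∈ ValuesN A F h P R, PoleRel K Q a b) → ∃ c, ∀ a ∈ ValuesN A F h P R, a = c) ∧
    -- (3) for every number field `R_K` is not a finite disjunction of such formulas over the line
    (∀ (K : Type) [Field K] [NumberField K] (k : ℕ) (m : Fin k → ℕ)
      (A F : ∀ i, Fin (m i) → Polynomial (Polynomial K)), (∀ i, Small (A i) (F i)) →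
      ∀ (P R : ∀ i, K → MvPolynomial (Fin 1 ⊕ (Fin (m i) ⊕ Fin (m i))) K),
      ¬ ∀ a b : K, (∃ i, a ∈ Values (fun j => (A i j).map (Polynomial.evalRingHom b))
        (fun j => (F i j).map (Polynomial.evalRingHom b)) (P i b) (R i b)) ↔
        PoleRel K {p | p % 4 = 1} a b) ∧
    -- (4) disjunctions of such formulas and of formulas of other kinds: in each definition of `R_K`
    -- there is a piece with infinitely many classes
    (∀ (K : Type) [Field K] [NumberField K] (c s : ℕ) (φ : Old K) (Φ : Fin c → Formula K)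
      (W : Fin s → Piece K), (∀ a b : K, Disj φ Φ W a b ↔ PoleRel K {p | p % 4 = 1} a b) →
      ∀ b : K, φ.Blocks b → (∀ i, Small ((Φ i).A b) ((Φ i).F b)) →
        ∃ i, {a : K | (W i).Rel a b}.Infinite ∧ Infinite (Quotient (rEquiv (Pts (W i) b)))) ∧
    -- (5) relations contained in the pole relation of a rich set of primes
    (∀ (K : Type) [Field K] [NumberField K] (Q : Set ℕ), Rich Q →
      ∀ (c s : ℕ) (φ : Old K) (Φ : Fin c → Formula K) (W : Fin s → Piece K) (b : K), φ.Blocks b →
      (∀ i, Small ((Φ i).A b) ((Φ i).F b)) → (∀ i, Finite (Quotient (rEquiv (Pts (W i) b)))) →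
      (∀ a : K, Disj φ Φ W a b → PoleRel K Q a b) →
      (∀ i, ((Φ i).set b).Finite) ∧ (∀ i, {a : K | (W i).Rel a b}.Finite) ∧
      ∀ B : ℤ, ∃ t : ℤ, B < t ∧ PoleRel K Q (t : K) b ∧ ¬ Disj φ Φ W (t : K) b) := by
  have hval : ∀ (K : Type) [Field K] [NumberField K] (Q : Set ℕ), Rich Q → ∀ b ∈ NoPole K Q,
      ∀ (m : ℕ) (A F : Fin m → Polynomial K) (P R : MvPolynomial (Fin 1 ⊕ (Fin m ⊕ Fin m)) K),
      Small A F → (∀ a ∈ Values A F P R, PoleRel K Q a b) → (Values A F P R).Finite := by
    intro K _ _ Q hQ b hb m A F P R hs h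
    obtain ⟨φ⟩ : Nonempty (K →+* ℂ) := inferInstance
    exact Pool.Agent.H436.PR.fin_line (flat_noPole (K := K) hQ) φ hs P R fun t w y h1 h2 =>
      (pole_iff hb _).1 (h _ ⟨t, w, y, h1, h2, rfl⟩)
  have main : ∀ (K : Type) [Field K] [NumberField K] (Q : Set ℕ), Rich Q →
      ∀ (c s : ℕ) (φ : Old K) (Φ : Fin c → Formula K) (W : Fin s → Piece K), ∀ b ∈ NoPole K Q,
      φ.Blocks b → (∀ i, ((Φ i).set b).Finite) → (∀ i, {a : K | (W i).Rel a b}.Finite) →
      (∀ a : K, Disj φ Φ W a b → PoleRel K Q a b) →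
      ∀ B : ℤ, ∃ t : ℤ, B < t ∧ PoleRel K Q (t : K) b ∧ ¬ Disj φ Φ W (t : K) b := by
    intro K _ _ Q hQ c s φ Φ W b hb hS hV hW hU B
    obtain ⟨-, hQF, -⟩ := QuadraticFamilies.result
    obtain ⟨h2, -⟩ := hQF K Q hQ φ.k φ.h φ.l φ.n φ.m φ.f φ.g φ.hf φ.hg φ.r φ.d φ.S φ.p φ.q b hb hS
      fun a ha => hU a (Or.inl ha)
    have h3 : {a : K | (∃ i, a ∈ (Φ i).set b) ∨ ∃ i, (W i).Rel a b}.Finite := by
      have e1 : {a : K | (∃ i, a ∈ (Φ i).set b) ∨ ∃ i, (W i).Rel a b} = (⋃ i, (Φ i).set b) ∪
          ⋃ i, {a : K | (W i).Rel a b} := by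
        ext a
        simp
      rw [e1]
      exact (Set.finite_iUnion hV).union (Set.finite_iUnion hW)
    have h4 : Thin {a : K | Disj φ Φ W a b} :=
      (h2.union (Thin.of_finite h3)).mono fun a ha => ha
    obtain ⟨t, ht, ht'⟩ := h4.exists_int B
    exact ⟨t, ht, pole_int Q t b, ht'⟩
  have part5 : ∀ (K : Type) [Field K] [NumberField K] (Q : Set ℕ), Rich Q →
      ∀ (c s : ℕ) (φ : Old K) (Φ : Fin c → Formula K) (W : Fin s → Piece K) (b : K), φ.Blocks b →
      (∀ i, Small ((Φ i).A b) ((Φ i).F b)) → (∀ i, {a : K | (W i).Rel a b}.Finite) →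
      (∀ a : K, Disj φ Φ W a b → PoleRel K Q a b) →
      (∀ i, ((Φ i).set b).Finite) ∧
      ∀ B : ℤ, ∃ t : ℤ, B < t ∧ PoleRel K Q (t : K) b ∧ ¬ Disj φ Φ W (t : K) b := by
    intro K _ _ Q hQ c s φ Φ W b hS hA hW hU
    obtain ⟨M, hb⟩ := Pool.Agent.T2H39.RE.exists_noPole Q b
    have hQ' := Pool.Agent.T2H39.RE.rich_gt hQ M
    have hV : ∀ i, ((Φ i).set b).Finite := fun i =>
      hval K _ hQ' b hb _ _ _ _ _ (hA i) fun a ha =>
        pole_mono (hU a (Or.inr (Or.inl ⟨i, ha⟩)))
    refine ⟨hV, fun B => ?_⟩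
    obtain ⟨t, ht, -, ht'⟩ := main K _ hQ' c s φ Φ W b hb hS hV hW
      (fun a ha => pole_mono (hU a ha)) B
    exact ⟨t, ht, pole_int Q t b, ht'⟩
  have part4 : ∀ (K : Type) [Field K] [NumberField K] (c s : ℕ) (φ : Old K)
      (Φ : Fin c → Formula K) (W : Fin s → Piece K),
      (∀ a b : K, Disj φ Φ W a b ↔ PoleRel K {p | p % 4 = 1} a b) →
      ∀ b : K, φ.Blocks b → (∀ i, Small ((Φ i).A b) ((Φ i).F b)) →
        ∃ i, {a : K | (W i).Rel a b}.Infinite ∧ Infinite (Quotient (rEquiv (Pts (W i) b))) := by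
    intro K _ _ c s φ Φ W hiff b hS hA
    obtain ⟨M, hb⟩ := Pool.Agent.T2H39.RE.exists_noPole {p | p % 4 = 1} b
    have hQ := Pool.Agent.T2H39.RE.rich_gt four M
    have hno : ∀ i a, (W i).Rel a b → a ∈ NoPole K {p | p ∈ {p | p % 4 = 1} ∧ M < p} :=
      fun i a ha => (pole_iff hb a).1 (pole_mono ((hiff a b).1 (Or.inr (Or.inr ⟨i, ha⟩))))
    obtain ⟨i, hi⟩ : ∃ i, {a : K | (W i).Rel a b}.Infinite := by
      by_contra hcon
      simp only [Set.Infinite, not_exists, not_not] at hcon
      obtain ⟨-, h1⟩ := part5 K {p | p % 4 = 1} four c s φ Φ W b hS hA hcon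
        fun a ha => (hiff a b).1 ha
      obtain ⟨t, -, ht1, ht2⟩ := h1 0
      exact ht2 ((hiff t b).2 ht1)
    refine ⟨i, hi, ?_⟩
    rw [← not_finite_iff_infinite]
    intro hfin
    exact hi (Pool.Agent.T2H39.RE.finite_rel (flat_noPole (K := K) hQ) (W i) b hfin (hno i))
  refine ⟨?_, ?_, ?_, part4, ?_⟩
  · rintro K _ _ m N ε A F hs X rfl
    have h1 := Pool.Agent.H436.PR.fu_line (A := A) (F := F) hs ε
    exact ⟨h1, h1.blk2⟩
  · intro K _ _ n m A F hs
    obtain ⟨h, hh, hU⟩ := Pool.Agent.H436.PR.unir (a := A) (f := F) (fun j => (hs.1 j).1)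
      (fun j => (hs.1 j).2) ⟨fun i j => by
        rw [mem_vars_iff_degreeOf_ne_zero, mem_vars_iff_degreeOf_ne_zero, not_not, not_not]
        exact (hs.2 i).1 j, fun i => (hs.2 i).2.1, fun i => (hs.2 i).2.2⟩
    refine ⟨h, hh, hU, ?_⟩
    intro _ Q hQ b P R hPR
    obtain ⟨M, hb⟩ := Pool.Agent.T2H39.RE.exists_noPole Q b
    have hQ' := Pool.Agent.T2H39.RE.rich_gt hQ M
    have e1 : ∀ x : Fin (n + (m + m)) → K, (fun s => x (Pool.Agent.H436.PR.nm n m s)) =
        (Sum.elim (fun i => x (Pool.Agent.H436.PR.nm n m (Sum.inl i))) (Sum.elim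
          (fun j => x (Pool.Agent.H436.PR.nm n m (Sum.inr (Sum.inl j))))
          fun j => x (Pool.Agent.H436.PR.nm n m (Sum.inr (Sum.inr j)))) :
          Fin n ⊕ (Fin m ⊕ Fin m) → K) := by
      intro x
      funext s
      rcases s with j | i | i <;> rfl
    have e2 : ∀ (x : Fin (n + (m + m)) → K) (G : MvPolynomial (Fin n ⊕ (Fin m ⊕ Fin m)) K),
        eval x (rename (Pool.Agent.H436.PR.nm n m) G) =
        eval (Sum.elim (fun i => x (Pool.Agent.H436.PR.nm n m (Sum.inl i))) (Sum.elim
          (fun j => x (Pool.Agent.H436.PR.nm n m (Sum.inr (Sum.inl j))))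
          fun j => x (Pool.Agent.H436.PR.nm n m (Sum.inr (Sum.inr j))))) G := by
      intro x G
      rw [eval_rename, ← e1]
      rfl
    obtain ⟨c, hc⟩ := Pool.Agent.H436.PR.one_value (flat_noPole (K := K) hQ')
      (hU (n + (m + m)) (Pool.Agent.H436.PR.nm n m)) (rename (Pool.Agent.H436.PR.nm n m) P)
      (rename (Pool.Agent.H436.PR.nm n m) R) (by
        rintro x ⟨hx, hx'⟩ hR
        rw [e2] at hR
        rw [e2, e2]
        exact (pole_iff hb _).1 (pole_mono (hPR _ ⟨_, _, _, hx, hx', hR, rfl⟩)))
    refine ⟨c, ?_⟩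
    rintro _ ⟨t, w, y, h1, h2, h3, rfl⟩
    have h4 := hc (fun i => Sum.elim t (Sum.elim w y) ((Pool.Agent.H436.PR.nm n m).symm i)) (by
      refine ⟨?_, ?_⟩
      · intro j
        simp only [Equiv.symm_apply_apply, Sum.elim_inl, Sum.elim_inr]
        exact h1 j
      · simp only [Equiv.symm_apply_apply, Sum.elim_inl]
        exact h2) (by
      rw [e2]
      simp only [Equiv.symm_apply_apply, Sum.elim_inl, Sum.elim_inr]
      exact h3)
    rw [e2, e2] at h4
    simp only [Equiv.symm_apply_apply, Sum.elim_inl, Sum.elim_inr] at h4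
    exact h4
  · intro K _ _ k m A F hs P R hiff
    obtain ⟨b, hb⟩ := exists_spec fun i j => (hs i).1 j
    let φ : Old K := ⟨0, 0, 0, fun i => i.elim0, fun i => i.elim0, fun i => i.elim0,
      fun i => i.elim0, fun i => i.elim0, fun i => i.elim0, fun i => i.elim0, fun i => i.elim0,
      fun i => i.elim0, fun i => i.elim0, fun i => i.elim0⟩
    let Φ : Fin k → Formula K := fun i => ⟨m i,
      fun b j => (A i j).map (Polynomial.evalRingHom b),
      fun b j => (F i j).map (Polynomial.evalRingHom b), P i, R i⟩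
    obtain ⟨i, -⟩ := part4 K k 0 φ Φ (fun i => i.elim0) (by
        intro a b
        rw [← hiff a b]
        constructor
        · rintro ((⟨i, -⟩ | ⟨i, -⟩ | ⟨i, -⟩) | h | ⟨i, -⟩)
          · exact i.elim0
          · exact i.elim0
          · exact i.elim0
          · exact h
          · exact i.elim0
        · intro h
          exact Or.inr (Or.inl h)) b (fun i => i.elim0) fun i => small_spec (hs i) (hb i)
    exact i.elim0
  · intro K _ _ Q hQ c s φ Φ W b hS hA hW hU
    obtain ⟨M, hb⟩ := Pool.Agent.T2H39.RE.exists_noPole Q b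
    have hQ' := Pool.Agent.T2H39.RE.rich_gt hQ M
    have h1 : ∀ i, {a : K | (W i).Rel a b}.Finite := fun i =>
      Pool.Agent.T2H39.RE.finite_rel (flat_noPole (K := K) hQ') (W i) b (hW i) fun a ha =>
        (pole_iff hb a).1 (pole_mono (hU a (Or.inr (Or.inr ⟨i, ha⟩))))
    obtain ⟨h2, h3⟩ := part5 K Q hQ c s φ Φ W b hS hA h1 hU
    exact ⟨h2, h1, h3⟩

end Pool.Agent.Results.MP_a59382_lc.ConicBundles
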